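/-
helper20: module LOC of table ps_modules (MP_b95bd9_al).
-/
import Pool.Agent.H10.PS.Targets

set_option autoImplicit false

open scoped commutatorElement

namespace Pool.Agent.H20.PS

/-- separation of one element of a f.g. abelian group -/
lemma rf_one (C : Type) [CommGroup C] [Group.FG C] (c : C) (hc : c ≠ 1) :
    ∃ W : Subgroup C, W.FiniteIndex ∧ c ∉ W := by
  classical
  obtain ⟨ι, j, _, _, p, hp, e, ⟨f⟩⟩ := CommGroup.equiv_free_prod_prod_multiplicative_zmod C
  have hfc : f c ≠ 1 := by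
    intro h; exact hc (by simpa using congrArg f.symm h)
  by_cases h2 : (f c).2 = 1
  · -- then the free part is nontrivial
    have h1 : (f c).1 ≠ 1 := by
      intro h; apply hfc; exact Prod.ext h h2
    obtain ⟨i, hi⟩ : ∃ i, (f c).1 i ≠ 1 := by
      by_contra hcon
      push Not at hcon
      exact h1 (funext hcon)
    set x : ℤ := Multiplicative.toAdd ((f c).1 i) with hx
    have hx0 : x ≠ 0 := by
      intro h
      apply hi
      have : Multiplicative.toAdd ((f c).1 i) = 0 := h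
      exact this
    set K : ℕ := x.natAbs + 1 with hK
    let g : C →* Multiplicative (ZMod K) :=
      (AddMonoidHom.toMultiplicative (Int.castAddHom (ZMod K))).comp
        ((Pi.evalMonoidHom _ i).comp ((MonoidHom.fst _ _).comp f.toMonoidHom))
    have : NeZero K := ⟨by omega⟩
    have : Finite (Multiplicative (ZMod K)) := inferInstanceAs (Finite (ZMod K))
    refine ⟨g.ker, Subgroup.finiteIndex_ker g, ?_⟩
    intro hmem
    have hg : g c = 1 := hmem
    have hg2 : ((x : ℤ) : ZMod K) = 0 := hg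
    rw [ZMod.intCast_zmod_eq_zero_iff_dvd] at hg2
    have := Int.natAbs_dvd_natAbs.mpr hg2
    have h3 := Nat.le_of_dvd (Int.natAbs_pos.mpr hx0) this
    simp only [Int.natAbs_natCast] at h3
    omega
  · have : ∀ i, NeZero (p i ^ e i) := fun i => ⟨pow_ne_zero _ (hp i).ne_zero⟩
    have : ∀ i, Finite (Multiplicative (ZMod (p i ^ e i))) :=
      fun i => inferInstanceAs (Finite (ZMod (p i ^ e i)))
    let g : C →* ((i : ι) → Multiplicative (ZMod (p i ^ e i))) :=
      (MonoidHom.snd _ _).comp f.toMonoidHom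
    exact ⟨g.ker, Subgroup.finiteIndex_ker g, fun hmem => h2 hmem⟩

lemma rf_set (C : Type) [CommGroup C] [Group.FG C] (D : Set C) (hD : D.Finite)
    (h1 : ∀ d ∈ D, d ≠ 1) :
    ∃ W : Subgroup C, W.FiniteIndex ∧ ∀ d ∈ D, d ∉ W := by
  classical
  choose! W hW using fun d (hd : d ∈ D) => rf_one C d (h1 d hd)
  have := hD.to_subtype
  refine ⟨⨅ d : D, W d, ?_, ?_⟩
  · have : ∀ d : D, (W d).FiniteIndex := fun d => (hW d d.2).1
    exact Subgroup.finiteIndex_iInf (fun d : D => (hW d d.2).1.index_ne_zero |> fun h => ⟨h⟩)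
  · intro d hd hmem
    exact (hW d hd).2 ((Subgroup.mem_iInf.mp hmem) ⟨d, hd⟩)

/-- the separating subgroup `V'` -/
lemma sep (U : Type) [Group U] [Group.FG U] (R' H' S : Subgroup U)
    (hR : R'.Normal) (hsup : R' ⊔ H' = ⊤) (hHS : H' ≤ S)
    (hS : ∀ s ∈ S, ∀ x ∈ H', s * x * s⁻¹ ∈ H')
    (hcomm : ∀ a ∈ R', ∀ b ∈ R', a * b * a⁻¹ * b⁻¹ ∈ H')
    (hfin : S.FiniteIndex) (D : Set U) (hD : D.Finite) :
    ∃ V' : Subgroup U, V'.FiniteIndex ∧ H' ≤ V' ∧ V' ≤ S ∧
      (∀ s ∈ S, ∀ x ∈ V', s * x * s⁻¹ ∈ V') ∧ ∀ d ∈ D, d ∈ V' → d ∈ H' := by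
  classical
  have hFG : Group.FG S := Subgroup.fg_of_index_ne_zero S
  let K : Subgroup S := H'.subgroupOf S
  have hK : K.Normal := by
    constructor
    intro n hn g
    exact hS g g.2 n hn
  -- the quotient is commutative
  have hdec : ∀ u : U, ∃ a ∈ R', ∃ b ∈ H', u = a * b := by
    intro u
    have : u ∈ ((H' ⊔ R' : Subgroup U) : Set U) := by
      rw [sup_comm, hsup]; trivial
    rw [Subgroup.mul_normal] at this
    obtain ⟨b, hb, a, ha, rfl⟩ := Set.mem_mul.mp this
    refine ⟨b * a * b⁻¹, hR.conj_mem a ha b, b, hb, by group⟩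
  have hcq : ∀ x y : S ⧸ K, x * y = y * x := by
    intro x y
    obtain ⟨x, rfl⟩ := QuotientGroup.mk_surjective x
    obtain ⟨y, rfl⟩ := QuotientGroup.mk_surjective y
    obtain ⟨a, ha, b, hb, hx⟩ := hdec x
    obtain ⟨a', ha', b', hb', hy⟩ := hdec y
    have haS : a ∈ S := by
      have : a = x * b⁻¹ := by rw [hx]; group
      rw [this]; exact S.mul_mem x.2 (S.inv_mem (hHS hb))
    have haS' : a' ∈ S := by
      have : a' = y * b'⁻¹ := by rw [hy]; group
      rw [this]; exact S.mul_mem y.2 (S.inv_mem (hHS hb'))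
    have e1 : (QuotientGroup.mk x : S ⧸ K) = QuotientGroup.mk (⟨a, haS⟩ : S) := by
      rw [QuotientGroup.eq]
      rw [Subgroup.mem_subgroupOf]
      have h3 : ((x⁻¹ * ⟨a, haS⟩ : S) : U) = b⁻¹ := by
        change (x : U)⁻¹ * a = b⁻¹
        rw [hx]; group
      rw [h3]; exact H'.inv_mem hb
    have e2 : (QuotientGroup.mk y : S ⧸ K) = QuotientGroup.mk (⟨a', haS'⟩ : S) := by
      rw [QuotientGroup.eq]
      rw [Subgroup.mem_subgroupOf]
      have h3 : ((y⁻¹ * ⟨a', haS'⟩ : S) : U) = b'⁻¹ := by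
        change (y : U)⁻¹ * a' = b'⁻¹
        rw [hy]; group
      rw [h3]; exact H'.inv_mem hb'
    rw [e1, e2, ← QuotientGroup.mk_mul, ← QuotientGroup.mk_mul, QuotientGroup.eq,
      Subgroup.mem_subgroupOf]
    change (a * a')⁻¹ * (a' * a) ∈ H'
    have h4 : (a * a')⁻¹ * (a' * a) = a'⁻¹ * a⁻¹ * a'⁻¹⁻¹ * a⁻¹⁻¹ := by group
    rw [h4]
    exact hcomm _ (R'.inv_mem ha') _ (R'.inv_mem ha)
  let _ : CommGroup (S ⧸ K) := { (inferInstance : Group (S ⧸ K)) with mul_comm := hcq }
  have hFGq : Group.FG (S ⧸ K) := inferInstance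
  let D' : Set (S ⧸ K) := {q | ∃ s : S, (s : U) ∈ D ∧ (s : U) ∉ H' ∧ q = QuotientGroup.mk s}
  have hD' : D'.Finite := by
    let D0 : Set S := {s : S | (s : U) ∈ D}
    have hD0 : D0.Finite := hD.preimage (Subtype.val_injective.injOn)
    apply (hD0.image (fun s => (QuotientGroup.mk s : S ⧸ K))).subset
    rintro q ⟨s, hs, -, rfl⟩
    exact ⟨s, hs, rfl⟩
  obtain ⟨W, hW, hWD⟩ := rf_set (S ⧸ K) D' hD' (by
    rintro d ⟨s, hs, hsH, rfl⟩ h
    rw [QuotientGroup.eq_one_iff] at h
    exact hsH h)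
  let V0 : Subgroup S := W.comap (QuotientGroup.mk' K)
  have hV0 : V0.FiniteIndex := ⟨by
    rw [Subgroup.index_comap_of_surjective _ (QuotientGroup.mk'_surjective K)]
    exact hW.index_ne_zero⟩
  refine ⟨V0.map S.subtype, ?_, ?_, ?_, ?_, ?_⟩
  · constructor
    rw [Subgroup.index_map_subtype]
    exact mul_ne_zero hV0.index_ne_zero hfin.index_ne_zero
  · intro x hx
    refine ⟨⟨x, hHS hx⟩, ?_, rfl⟩
    change (QuotientGroup.mk (⟨x, hHS hx⟩ : S) : S ⧸ K) ∈ W
    have : (QuotientGroup.mk (⟨x, hHS hx⟩ : S) : S ⧸ K) = 1 := by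
      rw [QuotientGroup.eq_one_iff]
      exact hx
    rw [this]; exact W.one_mem
  · rintro x ⟨y, -, rfl⟩
    exact y.2
  · rintro s hs x ⟨y, hy, rfl⟩
    refine ⟨⟨s, hs⟩ * y * ⟨s, hs⟩⁻¹, ?_, rfl⟩
    have hy' : (QuotientGroup.mk y : S ⧸ K) ∈ W := hy
    change (QuotientGroup.mk (⟨s, hs⟩ * y * ⟨s, hs⟩⁻¹) : S ⧸ K) ∈ W
    rw [QuotientGroup.mk_mul, QuotientGroup.mk_mul, QuotientGroup.mk_inv, mul_comm
      (QuotientGroup.mk (⟨s, hs⟩ : S) : S ⧸ K), mul_assoc, mul_inv_cancel, mul_one]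
    exact hy'
  · rintro d hd ⟨y, hy, rfl⟩
    by_contra hcon
    exact hWD _ ⟨y, hd, hcon, rfl⟩ hy

/-! ### the group `U` and the main construction -/

open Pool.Agent.H10.PS

lemma NN_normal {r : ℕ} (R : Subgroup (FG r)) (hR : R.Normal) (m : ℕ) : (NN R m).Normal := by
  have h1 : (⁅R, R⁆).Normal := Subgroup.commutator_normal R R
  have h2 : (Subgroup.closure {w | ∃ a ∈ R, w = a ^ m}).Normal := by
    constructor
    intro n hn g
    induction hn using Subgroup.closure_induction with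
    | mem x hx =>
      obtain ⟨a, ha, rfl⟩ := hx
      apply Subgroup.subset_closure
      exact ⟨g * a * g⁻¹, hR.conj_mem a ha g, by rw [conj_pow]⟩
    | one => simp
    | mul x y _ _ hx hy =>
      have : g * (x * y) * g⁻¹ = (g * x * g⁻¹) * (g * y * g⁻¹) := by group
      rw [this]; exact Subgroup.mul_mem _ hx hy
    | inv x _ hx =>
      have : g * x⁻¹ * g⁻¹ = (g * x * g⁻¹)⁻¹ := by group
      rw [this]; exact Subgroup.inv_mem _ hx
  exact Subgroup.sup_normal _ _

theorem h_one {r : ℕ} {R F₀ : Subgroup (FG r)} {V : Type} (t : Tile R F₀ V) (v : V) :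
    t.h 1 v = 1 := by
  have := t.h_mul 1 1 v
  rw [mul_one, map_one, Equiv.Perm.one_apply] at this
  exact (mul_eq_left.mp this.symm)

theorem h_inv {r : ℕ} {R F₀ : Subgroup (FG r)} {V : Type} (t : Tile R F₀ V) (w : FG r) (v : V) :
    t.h w⁻¹ v = (t.h w (t.p w⁻¹ v))⁻¹ := by
  have := t.h_mul w w⁻¹ v
  rw [mul_inv_cancel, h_one] at this
  exact (inv_eq_of_mul_eq_one_right this.symm).symm

theorem LOC : T_LOC := by
  classical
  intro r m R hRn hcR H hNH O _ c hc hO V _ _ t B
  have hNn : (NN R m).Normal := NN_normal R hRn m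
  have hRF : R ≤ H ⊔ R := le_sup_right
  have hHF : H ≤ H ⊔ R := le_sup_left
  choose a haR ha using fun o => (hO (c o)).1 ⟨o, rfl⟩
  have hxy : ∀ q : Fin r × V, ∃ x ∈ H, ∃ y ∈ R, t.h (FreeGroup.of q.1) q.2 = x * y := by
    intro q
    have h1 : t.h (FreeGroup.of q.1) q.2 ∈ ((H ⊔ R : Subgroup (FG r)) : Set (FG r)) :=
      t.h_mem _ _
    rw [Subgroup.mul_normal] at h1
    obtain ⟨x, hx, y, hy, h2⟩ := Set.mem_mul.mp h1
    exact ⟨x, hx, y, hy, h2.symm⟩
  choose x hx y hy hxy using hxy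
  set T : Set (FG r) := Set.range x ∪ Set.range y ∪ Set.range a with hT
  have hTfin : T.Finite :=
    ((Set.finite_range x).union (Set.finite_range y)).union (Set.finite_range a)
  set U : Subgroup (FG r) := Subgroup.closure T with hU
  have hUFG : Group.FG U := by
    rw [Group.fg_iff_subgroup_fg]
    exact ⟨hTfin.toFinset, by simp [hU]⟩
  have hxU : ∀ q, x q ∈ U := fun q => Subgroup.subset_closure (Or.inl (Or.inl ⟨q, rfl⟩))
  have hyU : ∀ q, y q ∈ U := fun q => Subgroup.subset_closure (Or.inl (Or.inr ⟨q, rfl⟩))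
  have haU : ∀ o, a o ∈ U := fun o => Subgroup.subset_closure (Or.inr ⟨o, rfl⟩)
  have hhU : ∀ (w : FG r) (v : V), t.h w v ∈ U := by
    intro w
    induction w using FreeGroup.induction_on with
    | C1 => intro v; rw [h_one]; exact U.one_mem
    | of i => intro v; rw [hxy (i, v)]; exact U.mul_mem (hxU _) (hyU _)
    | inv_of i ih => intro v; rw [h_inv]; exact U.inv_mem (ih _)
    | mul w w' h1 h2 => intro v; rw [t.h_mul]; exact U.mul_mem (h1 _) (h2 _)
  set R' : Subgroup U := R.subgroupOf U with hR'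
  set H' : Subgroup U := H.subgroupOf U with hH'
  have hR'n : R'.Normal := ⟨fun n hn g => hRn.conj_mem n hn g⟩
  have hsup : R' ⊔ H' = ⊤ := by
    rw [eq_top_iff]
    rintro ⟨u, hu⟩ -
    induction hu using Subgroup.closure_induction with
    | mem z hz =>
      rcases hz with (⟨q, rfl⟩ | ⟨q, rfl⟩) | ⟨o, rfl⟩
      · exact Subgroup.mem_sup_right (hx q)
      · exact Subgroup.mem_sup_left (hy q)
      · exact Subgroup.mem_sup_left (haR o)
    | one => exact Subgroup.one_mem _
    | mul z z' hz hz' h1 h2 => exact Subgroup.mul_mem _ h1 h2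
    | inv z hz h1 => exact Subgroup.inv_mem _ h1
  -- decomposition
  have hdec : ∀ u : U, ∃ a ∈ R, ∃ b ∈ H, (u : FG r) = a * b := by
    intro u
    have : u ∈ ((H' ⊔ R' : Subgroup U) : Set U) := by
      rw [sup_comm, hsup]; trivial
    rw [Subgroup.mul_normal] at this
    obtain ⟨b, hb, a, ha, hab⟩ := Set.mem_mul.mp this
    refine ⟨b * a * (b : FG r)⁻¹, hRn.conj_mem a ha b, b, hb, ?_⟩
    rw [← hab]; simp
  -- the map to conjugates
  have hκ : ∀ u : U, ∃ o : O, ∀ w, w ∈ c o ↔ (u : FG r)⁻¹ * w * u ∈ H := by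
    intro u
    obtain ⟨α, hα, β, hβ, hu⟩ := hdec u
    let K : Subgroup (FG r) := H.map (MulAut.conj (u : FG r)).toMonoidHom
    have hK : ∀ w, w ∈ K ↔ (u : FG r)⁻¹ * w * u ∈ H := by
      intro w
      constructor
      · rintro ⟨z, hz, rfl⟩
        have : (u : FG r)⁻¹ * ((MulAut.conj (u : FG r)).toMonoidHom z) * u = z := by
          simp [MulAut.conj_apply, mul_assoc]
        rw [this]; exact hz
      · intro hw
        exact ⟨_, hw, by simp [MulAut.conj_apply, mul_assoc]⟩
    obtain ⟨o, ho⟩ := (hO K).2 ⟨α, hα, fun w => by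
      rw [hK w, hu]
      have : (α * β)⁻¹ * w * (α * β) = β⁻¹ * (α⁻¹ * w * α) * β := by group
      rw [this]
      constructor
      · intro h1
        have := H.mul_mem (H.mul_mem hβ h1) (H.inv_mem hβ)
        simpa [mul_assoc] using this
      · intro h1
        exact H.mul_mem (H.mul_mem (H.inv_mem hβ) h1) hβ⟩
    exact ⟨o, fun w => by rw [← ho]; exact hK w⟩
  choose κ hκ using hκ
  -- stabiliser
  let S : Subgroup U :=
    { carrier := {u : U | ∀ z, z ∈ H ↔ (u : FG r) * z * (u : FG r)⁻¹ ∈ H}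
      one_mem' := by intro z; simp
      mul_mem' := by
        intro u u' h1 h2 z
        rw [h2 z, h1 _]
        have : (u : FG r) * (↑u' * z * (↑u' : FG r)⁻¹) * (u : FG r)⁻¹ =
          ((u * u' : U) : FG r) * z * ((u * u' : U) : FG r)⁻¹ := by
          simp [mul_assoc]
        rw [this]
      inv_mem' := by
        intro u h1 z
        have h2 := h1 ((u : FG r)⁻¹ * z * u)
        have e1 : (u : FG r) * ((u : FG r)⁻¹ * z * u) * (u : FG r)⁻¹ = z := by group
        rw [e1] at h2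
        rw [← h2]
        simp }
  have hSmem : ∀ u : U, u ∈ S ↔ ∀ z, z ∈ H ↔ (u : FG r) * z * (u : FG r)⁻¹ ∈ H :=
    fun u => Iff.rfl
  have hκS : ∀ (u : U) (o : O), κ u = o ↔ (⟨a o, haU o⟩ : U)⁻¹ * u ∈ S := by
    intro u o
    rw [hSmem]
    constructor
    · rintro rfl z
      have h1 := hκ u ((u : FG r) * z * (u : FG r)⁻¹)
      have h2 := ha (κ u) ((u : FG r) * z * (u : FG r)⁻¹)
      rw [h1] at h2
      have e1 : (u : FG r)⁻¹ * ((u : FG r) * z * (u : FG r)⁻¹) * u = z := by group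
      rw [e1] at h2
      rw [h2]
      simp [mul_assoc]
    · intro h
      apply hc
      ext w
      rw [hκ u w, ha o w, h]
      simp [mul_assoc]
  have hSfin : S.FiniteIndex := by
    have hinj : Function.Injective (fun q : U ⧸ S => κ q.out) := by
      intro q q' h
      simp only at h
      have h1 := (hκS q.out (κ q.out)).1 rfl
      have h2 := (hκS q'.out (κ q.out)).1 h.symm
      have h3 := S.mul_mem (S.inv_mem h1) h2
      have h4 : (q.out)⁻¹ * q'.out ∈ S := by
        have : ((⟨a (κ q.out), haU _⟩ : U)⁻¹ * q.out)⁻¹ * ((⟨a (κ q.out), haU _⟩ : U)⁻¹ * q'.out)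
          = (q.out)⁻¹ * q'.out := by group
        rw [this] at h3; exact h3
      rw [← QuotientGroup.out_eq' q, ← QuotientGroup.out_eq' q', QuotientGroup.eq]
      exact h4
    have := Finite.of_injective _ hinj
    exact Subgroup.finiteIndex_of_finite_quotient
  have hHS : H' ≤ S := by
    intro u hu z
    have hu' : (u : FG r) ∈ H := hu
    constructor
    · intro hz; exact H.mul_mem (H.mul_mem hu' hz) (H.inv_mem hu')
    · intro hz
      have := H.mul_mem (H.mul_mem (H.inv_mem hu') hz) hu'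
      simpa [mul_assoc] using this
  let D : Set U := {d | ∃ (o : O) (v : V), ∃ w ∈ B,
    (d : FG r) = (a o)⁻¹ * ((t.g v)⁻¹ * w * t.g v) * a o}
  have hD : D.Finite := by
    have h1 : (Set.range (fun q : O × V × B =>
      (a q.1)⁻¹ * ((t.g q.2.1)⁻¹ * (q.2.2 : FG r) * t.g q.2.1) * a q.1)).Finite :=
      Set.finite_range _
    apply (h1.preimage (Subtype.val_injective.injOn (s := Set.univ) |>.mono
      (Set.subset_univ _))).subset
    rintro d ⟨o, v, w, hw, hd⟩
    exact ⟨(o, v, ⟨w, hw⟩), hd.symm⟩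
  obtain ⟨V', hV'fin, hHV, hVS, hVn, hVD⟩ := sep U R' H' S hR'n hsup hHS
    (fun s hs z hz => ((hSmem s).1 hs z).1 hz)
    (by
      intro α hα β hβ
      have h1 : ⁅(α : FG r), (β : FG r)⁆ ∈ ⁅R, R⁆ := Subgroup.commutator_mem_commutator hα hβ
      exact hNH ((le_sup_left : ⁅R, R⁆ ≤ NN R m) h1)) hSfin D hD
  -- trivial action of N ∩ U
  have hNV : ∀ n : U, (n : FG r) ∈ NN R m → ∀ q : U ⧸ V', n • q = q := by
    intro n hn q
    obtain ⟨u, rfl⟩ := QuotientGroup.mk_surjective q
    rw [MulAction.Quotient.smul_mk, QuotientGroup.eq]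
    apply hHV
    have h1 := hNn.conj_mem _ ((NN R m).inv_mem hn) (u : FG r)⁻¹
    have h2 := hNH h1
    change (((n • u)⁻¹ * u : U) : FG r) ∈ H
    have h3 : (((n • u)⁻¹ * u : U) : FG r) = (u : FG r)⁻¹ * (n : FG r)⁻¹ * (u : FG r)⁻¹⁻¹ := by
      rw [smul_eq_mul]
      simp
    rw [h3]
    exact h2
  -- the action
  let hh : FG r → V → U := fun w v => ⟨t.h w v, hhU w v⟩
  have hh_mul : ∀ w w' v, hh (w * w') v = hh w (t.p w' v) * hh w' v :=
    fun w w' v => Subtype.ext (t.h_mul w w' v)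
  have hh_one : ∀ v, hh 1 v = 1 := fun v => Subtype.ext (h_one t v)
  let Y : Type := V × (U ⧸ V')
  let act : MulAction (FG r) Y :=
    { smul := fun w y => (t.p w y.1, hh w y.1 • y.2)
      one_smul := by
        intro y
        change (t.p 1 y.1, hh 1 y.1 • y.2) = y
        rw [map_one, hh_one, one_smul]
        rfl
      mul_smul := by
        intro w w' y
        change (t.p (w * w') y.1, hh (w * w') y.1 • y.2) =
          (t.p w (t.p w' y.1), hh w (t.p w' y.1) • hh w' y.1 • y.2)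
        rw [map_mul, hh_mul, mul_smul]
        rfl }
  let τ : FG r →* Equiv.Perm Y := MulAction.toPermHom (FG r) Y
  have hτ : ∀ w (y : Y), τ w y = (t.p w y.1, hh w y.1 • y.2) := fun w y => rfl
  have hfinQ : Finite (U ⧸ V') := Subgroup.finite_quotient_of_finiteIndex
  have hfinY : Finite Y := inferInstanceAs (Finite (V × (U ⧸ V')))
  let κ' : U ⧸ V' → O := Quotient.lift κ (by
    intro u u' h
    have h1 : u⁻¹ * u' ∈ V' := QuotientGroup.leftRel_apply.mp h
    have h2 := hVS h1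
    rw [hκS]
    have h3 := (hκS u' (κ u')).1 rfl
    have h4 := S.mul_mem h3 (S.inv_mem h2)
    have e : (⟨a (κ u'), haU _⟩ : U)⁻¹ * u' * (u⁻¹ * u')⁻¹ = (⟨a (κ u'), haU _⟩ : U)⁻¹ * u := by
      group
    rwa [e] at h4)
  have hκ' : ∀ u : U, κ' (QuotientGroup.mk u) = κ u := fun u => rfl
  let π : Y → V × O := fun y => (y.1, κ' y.2)
  let k : ℕ := Nat.card {q : U ⧸ V' // κ' q = κ 1}
  have hfib : ∀ q : V × O, Nat.card {y // π y = q} = k := by
    rintro ⟨v, o⟩
    apply Nat.card_congr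
    have hequiv : ∀ q : U ⧸ V', κ' q = o ↔ κ' ((⟨a o, haU o⟩ : U)⁻¹ • q) = κ 1 := by
      intro q
      obtain ⟨u, rfl⟩ := QuotientGroup.mk_surjective q
      rw [MulAction.Quotient.smul_mk, hκ', hκ', smul_eq_mul, hκS]
      have h1 := (hκS 1 (κ 1)).1 rfl
      rw [hκS, mul_one] at *
      constructor
      · intro h2; exact S.mul_mem h1 h2
      · intro h2
        have := S.mul_mem (S.inv_mem h1) h2
        simpa using this
    exact
      { toFun := fun y => ⟨(⟨a o, haU o⟩ : U)⁻¹ • y.1.2, by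
          rw [← hequiv]
          exact congrArg Prod.snd y.2⟩
        invFun := fun q => ⟨(v, (⟨a o, haU o⟩ : U) • q.1), by
          refine Prod.ext rfl ?_
          change κ' ((⟨a o, haU o⟩ : U) • q.1) = o
          rw [hequiv, inv_smul_smul]
          exact q.2⟩
        left_inv := by
          rintro ⟨⟨v', q⟩, hq⟩
          have : v' = v := congrArg Prod.fst hq
          subst this
          apply Subtype.ext
          refine Prod.ext rfl ?_
          exact smul_inv_smul _ _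
        right_inv := by
          rintro ⟨q, hq⟩
          apply Subtype.ext
          exact inv_smul_smul _ _ }
  -- kernel
  have hker : NN R m ≤ τ.ker := by
    let K0 : Subgroup (FG r) :=
      { carrier := {w | t.p w = 1 ∧ ∀ v, t.h w v ∈ NN R m}
        one_mem' := ⟨map_one _, fun v => by rw [h_one]; exact Subgroup.one_mem _⟩
        mul_mem' := by
          rintro w w' ⟨h1, h2⟩ ⟨h3, h4⟩
          refine ⟨by rw [map_mul, h1, h3, mul_one], fun v => ?_⟩
          rw [t.h_mul]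
          exact Subgroup.mul_mem _ (h2 _) (h4 _)
        inv_mem' := by
          rintro w ⟨h1, h2⟩
          refine ⟨by rw [map_inv, h1, inv_one], fun v => ?_⟩
          rw [h_inv]
          exact Subgroup.inv_mem _ (h2 _) }
    have hpR : ∀ w ∈ R, t.p w = 1 := fun w hw => t.p_triv w (hRF hw)
    have hK0 : NN R m ≤ K0 := by
      apply sup_le
      · rw [Subgroup.commutator_le]
        intro w hw w' hw'
        refine ⟨t.p_triv _ (hRF ?_), fun v => ?_⟩
        · rw [commutatorElement_def]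
          exact R.mul_mem (R.mul_mem (R.mul_mem hw hw') (R.inv_mem hw)) (R.inv_mem hw')
        · have e : t.h ⁅w, w'⁆ v = ⁅t.h w v, t.h w' v⁆ := by
            rw [commutatorElement_def, commutatorElement_def, t.h_mul, t.h_mul, t.h_mul, h_inv,
              h_inv]
            simp only [map_inv, hpR w hw, hpR w' hw', inv_one, Equiv.Perm.one_apply]
          rw [e]
          exact (le_sup_left : ⁅R, R⁆ ≤ NN R m)
            (Subgroup.commutator_mem_commutator (t.h_R w hw v) (t.h_R w' hw' v))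
      · rw [Subgroup.closure_le]
        rintro _ ⟨w, hw, rfl⟩
        refine ⟨by rw [map_pow, hpR w hw, one_pow], fun v => ?_⟩
        have e : ∀ j : ℕ, t.h (w ^ j) v = (t.h w v) ^ j := by
          intro j
          induction j with
          | zero => rw [pow_zero, pow_zero, h_one]
          | succ j ih =>
            rw [pow_succ, t.h_mul, hpR w hw, Equiv.Perm.one_apply, ih, pow_succ]
        rw [e]
        exact (le_sup_right : Subgroup.closure {w | ∃ a ∈ R, w = a ^ m} ≤ NN R m)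
          (Subgroup.subset_closure ⟨t.h w v, t.h_R w hw v, rfl⟩)
    intro w hw
    obtain ⟨h1, h2⟩ := hK0 hw
    rw [MonoidHom.mem_ker]
    ext1 y
    rw [hτ, h1, Equiv.Perm.one_apply, Equiv.Perm.one_apply]
    exact Prod.ext rfl (hNV _ (h2 _) _)
  refine ⟨Y, Fintype.ofFinite Y, inferInstanceAs (Nonempty (V × (U ⧸ V'))), τ, π, k, hker, ?_,
    hfib, ?_⟩
  · have : Nonempty {q : U ⧸ V' // κ' q = κ 1} := ⟨⟨QuotientGroup.mk 1, rfl⟩⟩
    exact Nat.card_pos
  · rintro ⟨v, q⟩ w hw hgood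
    obtain ⟨u, rfl⟩ := QuotientGroup.mk_surjective q
    change t.h w v = (t.g (t.p w v))⁻¹ * w * t.g v at hgood
    change τ w (v, QuotientGroup.mk u) = (v, QuotientGroup.mk u) ↔
      (t.g v)⁻¹ * w * t.g v ∈ c (κ u)
    have hs : (⟨a (κ u), haU _⟩ : U)⁻¹ * u ∈ S := (hκS u (κ u)).1 rfl
    set s : U := (⟨a (κ u), haU _⟩ : U)⁻¹ * u with hsdef
    have hus : u = (⟨a (κ u), haU _⟩ : U) * s := by rw [hsdef]; group
    rw [hτ, ha]
    constructor
    · intro h
      have h1 : t.p w v = v := congrArg Prod.fst h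
      have h2 : hh w v • (QuotientGroup.mk u : U ⧸ V') = QuotientGroup.mk u :=
        congrArg Prod.snd h
      rw [h1] at hgood
      rw [MulAction.Quotient.smul_mk, eq_comm, QuotientGroup.eq, smul_eq_mul] at h2
      -- u⁻¹ * (λ u) ∈ V'
      have h3 := hVn s hs _ h2
      have e : s * (u⁻¹ * (hh w v * u)) * s⁻¹ =
          (⟨a (κ u), haU _⟩ : U)⁻¹ * hh w v * (⟨a (κ u), haU _⟩ : U) := by
        rw [hsdef]; group
      rw [e] at h3
      have h4 := hVD _ ⟨κ u, v, w, hw, by
        change (a (κ u))⁻¹ * t.h w v * a (κ u) = _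
        rw [hgood]⟩ h3
      have h5 : (a (κ u))⁻¹ * t.h w v * a (κ u) ∈ H := h4
      rw [hgood] at h5
      exact h5
    · intro h
      have hF0n : ∀ z ∈ H ⊔ R, ∀ g : FG r, g * z * g⁻¹ ∈ H ⊔ R := by
        intro z hz g
        have h1 : ⁅g, z⁆ ∈ H ⊔ R := hRF (hcR (Subgroup.commutator_mem_commutator
          (Subgroup.mem_top g) (Subgroup.mem_top z)))
        have h2 := Subgroup.mul_mem _ h1 hz
        rw [commutatorElement_def] at h2
        simpa using h2
      have hl : (t.g v)⁻¹ * w * t.g v ∈ H ⊔ R := by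
        have h1 := hF0n _ (hHF h) (a (κ u))
        have e : a (κ u) * ((a (κ u))⁻¹ * ((t.g v)⁻¹ * w * t.g v) * a (κ u)) * (a (κ u))⁻¹ =
          (t.g v)⁻¹ * w * t.g v := by group
        rwa [e] at h1
      have hwF : w ∈ H ⊔ R := by
        have h1 := hF0n _ hl (t.g v)
        have e : t.g v * ((t.g v)⁻¹ * w * t.g v) * (t.g v)⁻¹ = w := by group
        rwa [e] at h1
      have hpw : t.p w v = v := by rw [t.p_triv w hwF]; rfl
      rw [hpw] at hgood
      refine Prod.ext hpw ?_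
      change hh w v • (QuotientGroup.mk u : U ⧸ V') = QuotientGroup.mk u
      rw [MulAction.Quotient.smul_mk, eq_comm, QuotientGroup.eq, smul_eq_mul]
      have h3 : (⟨a (κ u), haU _⟩ : U)⁻¹ * hh w v * (⟨a (κ u), haU _⟩ : U) ∈ V' := by
        apply hHV
        change (a (κ u))⁻¹ * t.h w v * a (κ u) ∈ H
        rw [hgood]; exact h
      have h4 := hVn s⁻¹ (S.inv_mem hs) _ h3
      have e : s⁻¹ * ((⟨a (κ u), haU _⟩ : U)⁻¹ * hh w v * (⟨a (κ u), haU _⟩ : U)) * s⁻¹⁻¹ =
        u⁻¹ * (hh w v * u) := by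
        rw [hsdef]; group
      rwa [e] at h4

end Pool.Agent.H20.PS
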